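import Mathlib
import Pool.Agent.H97.DS.Fix
import Pool.Graph.R_pool_sql_team_seeded_b0a926ef.Results.MP_cc6741_nt.DerangementSum

set_option autoImplicit false

/-!
# Permutation sums over roots of unity, weighted by the number of fixed points

For `n ≥ 1`, a primitive `n`-th root of unity `ζ` and a permutation `τ` of `n` letters let `w(τ)` be the
product of `1 / (1 - ζ^(j - τ(j)))` over the letters `j` which `τ` moves. Then for every complex number `t`
the sum of `t^(number of fixed points of τ) w(τ)` over all `τ` is the product of the `n` factors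
`t + (s - (n - 1) / 2) i`, `0 ≤ s < n`. The value at `t = 0` for even `n` is the derangement sum.
-/

namespace Pool.Agent.Results.MP_cc6741_nt.FixedPointEnumerator

open Finset Equiv

/-- the sum over the derangements `τ` of `n` letters of `∏_j 1 / (1 - ζ^(j - τ(j)))`;
the letters are `0, 1, …, n - 1` (only differences of letters occur) -/
noncomputable def derangementSum (n : ℕ) (ζ : ℂ) : ℂ :=
  ∑ τ ∈ (univ : Finset (Perm (Fin n))).filter (fun τ => ∀ j, τ j ≠ j),
    ∏ j : Fin n, 1 / (1 - ζ ^ (((j : ℕ) : ℤ) - ((τ j : ℕ) : ℤ)))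

/-- the number of fixed points of `τ` -/
def fixedPoints {n : ℕ} (τ : Perm (Fin n)) : ℕ := (univ.filter (fun j => τ j = j)).card

/-- the product of `1 / (1 - ζ^(j - τ(j)))` over the letters `j` with `τ(j) ≠ j` -/
noncomputable def weight {n : ℕ} (ζ : ℂ) (τ : Perm (Fin n)) : ℂ :=
  ∏ j ∈ univ.filter (fun j => τ j ≠ j), 1 / (1 - ζ ^ (((j : ℕ) : ℤ) - ((τ j : ℕ) : ℤ)))

theorem term {n : ℕ} [NeZero n] {ζ : ℂ} (h : ζ ^ n = 1) (t : ℂ) (τ : Perm (Fin n)) :
    t ^ fixedPoints τ * weight ζ τ = ∏ j, ((if τ j = j then t else 0) +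
      Pool.Agent.R352.CC.G ζ (τ j) *
        (Pool.Agent.R352.CC.G ζ (τ j) - Pool.Agent.R352.CC.G ζ j)⁻¹) := by
  rw [← prod_filter_mul_prod_filter_not univ (fun j => τ j = j)]
  congr 1
  · rw [fixedPoints, ← prod_const]
    refine prod_congr rfl fun j hj => ?_
    have h1 : τ j = j := (mem_filter.1 hj).2
    rw [if_pos h1, h1, sub_self, inv_zero, mul_zero, add_zero]
  · rw [weight]
    refine prod_congr rfl fun j hj => ?_
    have h1 : ¬ τ j = j := (mem_filter.1 hj).2
    rw [if_neg h1, zero_add]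
    exact Pool.Agent.Results.MP_cc6741_nt.DerangementSum.entry h j (τ j)

theorem result :
    (∀ n : ℕ, 1 < n → Even n → ∀ ζ : ℂ, IsPrimitiveRoot ζ n →
      derangementSum n ζ = ((n - 1).doubleFactorial : ℂ) ^ 2 / 2 ^ n ∧
      derangementSum n ζ = (n.factorial : ℂ) / 4 ^ n * (n.choose (n / 2) : ℂ)) ∧
    (∀ n : ℕ, 0 < n → ∀ ζ : ℂ, IsPrimitiveRoot ζ n → ∀ t : ℂ,
      ∑ τ : Perm (Fin n), t ^ fixedPoints τ * weight ζ τ =
        ∏ s : Fin n, (t + (((s : ℕ) : ℂ) - ((n : ℂ) - 1) / 2) * Complex.I)) := by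
  refine ⟨fun n hn hev ζ hz => Pool.Agent.Results.MP_cc6741_nt.DerangementSum.result n hn hev ζ hz,
    ?_⟩
  intro n hn ζ hz t
  have : NeZero n := ⟨by omega⟩
  rw [← Pool.Agent.H97.DS.per_eq hz t]
  exact sum_congr rfl fun τ _ => term hz.pow_eq_one t τ

end Pool.Agent.Results.MP_cc6741_nt.FixedPointEnumerator
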